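import Pool.Agent.Y171.CE.Stm

/-!
Project CE (helper171): windows with exactly one rare step.
`theorem win' : S_NIL → S_MASS → S_CONV → S_POW → S_WIN`.
-/

set_option autoImplicit false

namespace Pool.Agent.Y65.CE

open Pool.Agent.Y171.CE

/-! ### convolutions -/

section conv

variable {G : Type} [Group G] [Fintype G]

theorem conv_assoc (a b c : G → ℝ) : conv (conv a b) c = conv a (conv b c) := by
  funext x
  simp only [conv, Finset.sum_mul, Finset.mul_sum]
  rw [Finset.sum_comm]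
  refine Finset.sum_congr rfl fun k _ => ?_
  refine Fintype.sum_equiv (Equiv.mulLeft k⁻¹) _ _ fun h => ?_
  have e : (k⁻¹ * h)⁻¹ * (k⁻¹ * x) = h⁻¹ * x := by group
  simp only [Equiv.coe_mulLeft]
  rw [e, mul_assoc]

theorem sum_conv (a b : G → ℝ) : ∑ x, conv a b x = (∑ x, a x) * ∑ x, b x := by
  simp only [conv]
  rw [Finset.sum_comm, Finset.sum_mul]
  refine Finset.sum_congr rfl fun h _ => ?_
  rw [← Finset.mul_sum]
  congr 1
  exact Fintype.sum_equiv (Equiv.mulLeft h⁻¹) _ _ fun x => rfl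

theorem conv_mono {a a' b b' : G → ℝ} (ha : ∀ x, 0 ≤ a x) (hb : ∀ x, 0 ≤ b x)
    (h1 : ∀ x, a x ≤ a' x) (h2 : ∀ x, b x ≤ b' x) (x : G) : conv a b x ≤ conv a' b' x := by
  unfold conv
  exact Finset.sum_le_sum fun h _ => mul_le_mul (h1 h) (h2 _) (hb _) ((ha h).trans (h1 h))

theorem conv_smul (c d : ℝ) (a b : G → ℝ) :
    conv (fun x => c * a x) (fun x => d * b x) = fun x => c * d * conv a b x := by
  funext x
  simp only [conv, Finset.mul_sum]
  exact Finset.sum_congr rfl fun h _ => by ring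

theorem conv_sum {α β : Type} [Fintype α] [Fintype β] (a : α → G → ℝ) (b : β → G → ℝ) :
    conv (fun x => ∑ i, a i x) (fun x => ∑ i, b i x) =
      fun x => ∑ i : α × β, conv (a i.1) (b i.2) x := by
  funext x
  simp only [conv]
  rw [Finset.sum_comm]
  refine Finset.sum_congr rfl fun h _ => ?_
  rw [Finset.sum_mul_sum, Fintype.sum_prod_type]

variable [DecidableEq G]

theorem conv_delta (a : G → ℝ) : conv a (fun x : G => if x = 1 then (1 : ℝ) else 0) = a := by
  funext x
  simp only [conv, inv_mul_eq_one, mul_ite, mul_one, mul_zero]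
  simp

theorem cpow_zero (μ : G → ℝ) : cpow μ 0 = fun x : G => if x = 1 then (1 : ℝ) else 0 := rfl

theorem cpow_succ (μ : G → ℝ) (t : ℕ) : cpow μ (t + 1) = conv (cpow μ t) μ := by
  unfold cpow
  rw [Function.iterate_succ_apply']
  rfl

theorem cpow_add (μ : G → ℝ) (s t : ℕ) : cpow μ (s + t) = conv (cpow μ s) (cpow μ t) := by
  induction t with
  | zero => rw [cpow_zero, conv_delta]; rfl
  | succ t ih => rw [← add_assoc, cpow_succ, ih, conv_assoc, cpow_succ]

theorem cpow_nonneg {μ : G → ℝ} (hμ : ∀ x, 0 ≤ μ x) (t : ℕ) (x : G) : 0 ≤ cpow μ t x := by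
  induction t generalizing x with
  | zero => rw [cpow_zero]; dsimp only; split_ifs <;> norm_num
  | succ t ih =>
    rw [cpow_succ]
    exact Finset.sum_nonneg fun h _ => mul_nonneg (ih h) (hμ _)

theorem cpow_mass {μ : G → ℝ} (hμ : ∑ x, μ x = 1) (t : ℕ) : ∑ x, cpow μ t x = 1 := by
  induction t with
  | zero => rw [cpow_zero]; simp
  | succ t ih => rw [cpow_succ, sum_conv, ih, hμ, one_mul]

end conv

/-! ### combinatorics of lists -/

theorem ofFn_insertNth {α : Type} : ∀ (n i : ℕ) (h : i < n + 1) (x : α) (p : Fin n → α),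
    List.ofFn (Fin.insertNth (α := fun _ => α) ⟨i, h⟩ x p) =
      (List.ofFn p).take i ++ x :: (List.ofFn p).drop i
  | n, 0, h, x, p => by
    rw [show (⟨0, h⟩ : Fin (n + 1)) = 0 from rfl, Fin.insertNth_zero', List.ofFn_cons]
    simp
  | 0, i + 1, h, x, p => by omega
  | n + 1, i + 1, h, x, p => by
    obtain ⟨hd, tl, rfl⟩ := Fin.exists_cons p
    have i_lt := Nat.lt_of_succ_lt_succ h
    rw [show (⟨i + 1, h⟩ : Fin (n + 1 + 1)) = (⟨i, i_lt⟩ : Fin (n + 1)).succ from rfl,
      Fin.insertNth_succ_cons, List.ofFn_cons, ofFn_insertNth n i i_lt x tl, List.ofFn_cons,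
      List.take_succ_cons, List.drop_succ_cons, List.cons_append]

theorem sum_inj {α β : Type} [Fintype α] [Fintype β] (Φ : α → β) (hΦ : Function.Injective Φ)
    (f : β → ℝ) (hf : ∀ b, 0 ≤ f b) : ∑ a, f (Φ a) ≤ ∑ b, f b := by
  classical
  rw [← Finset.sum_image (s := Finset.univ) (g := Φ) (f := f) fun _ _ _ _ h => hΦ h]
  exact Finset.sum_le_univ_sum_of_nonneg hf

/-- insertion of the rare letter -/
def ins {A J : Type} {B : ℕ} (s : Fin (B + 1)) (i : J) (h : Fin B → A) : Fin (B + 1) → A ⊕ J :=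
  Fin.insertNth (α := fun _ => A ⊕ J) s (Sum.inr i) fun k => Sum.inl (h k)

theorem ins_inj {A J : Type} {B : ℕ} {i : J} {s s' : Fin (B + 1)} {h h' : Fin B → A}
    (e : ins s i h = ins s' i h') : s = s' ∧ h = h' := by
  have h1 : s = s' := by
    by_contra hne
    obtain ⟨k, hk⟩ := Fin.exists_succAbove_eq hne
    have h2 := congrFun e s
    rw [show ins s i h s = Sum.inr i from Fin.insertNth_apply_same _ _ _] at h2
    rw [← hk] at h2
    rw [show ins s' i h' (s'.succAbove k) = Sum.inl (h' k) from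
      Fin.insertNth_apply_succAbove _ _ _ _] at h2
    exact absurd h2 (by simp)
  subst h1
  refine ⟨rfl, funext fun k => ?_⟩
  have h2 := congrFun e (s.succAbove k)
  rw [show ins s i h (s.succAbove k) = Sum.inl (h k) from Fin.insertNth_apply_succAbove _ _ _ _,
    show ins s i h' (s.succAbove k) = Sum.inl (h' k) from
      Fin.insertNth_apply_succAbove _ _ _ _] at h2
  exact Sum.inl_injective h2

section main

variable {p : ℕ} [Fact p.Prime] {F : Type} [Field F] [Fintype F] [DecidableEq F]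
  [Algebra (ZMod p) F]

/-- lower bound without rare letters -/
theorem low_free (hPOW : S_POW) (hMASS : S_MASS) (x : F) (L : AddSubgroup (Fin 2 → F)) {n j : ℕ}
    (hn : 1 ≤ n) {ρ : ℝ} (g : Fin j → SL2 F) (hρ : 0 ≤ ρ) (hj : j * ρ ≤ 1) (y : Gp F) :
    ((1 - j * ρ) / (p : ℝ) ^ 2) ^ n *
      ∑ h : Fin n → NilT p, mL L ((List.ofFn h).map (st x)) y ≤
      cpow (muR (p := p) L x ρ g) n y := by
  have hw : 0 ≤ (1 - j * ρ) / (p : ℝ) ^ 2 := div_nonneg (by linarith) (by positivity)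
  have hP := congrFun (hPOW F L (NilT p ⊕ Fin j) (Sum.elim (fun N : NilT p => st x N) g)
    (Sum.elim (fun _ => (1 - j * ρ) / (p : ℝ) ^ 2) (fun _ => ρ)) n hn) y
  have h0 : cpow (muR (p := p) L x ρ g) n y = _ := hP
  rw [h0, Finset.mul_sum]
  have hom : ∀ k : NilT p ⊕ Fin j,
      0 ≤ (Sum.elim (fun _ => (1 - j * ρ) / (p : ℝ) ^ 2) (fun _ => ρ) k : ℝ) := by
    rintro (k | k)
    · exact hw
    · exact hρ
  refine le_trans (le_of_eq ?_) (sum_inj (fun (h : Fin n → NilT p) (k : Fin n) =>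
    (Sum.inl (h k) : NilT p ⊕ Fin j)) ?_ _ ?_)
  · refine Finset.sum_congr rfl fun h _ => ?_
    simp only [Sum.elim_inl, Finset.prod_const, Finset.card_univ, Fintype.card_fin]
    rw [List.map_ofFn]
    rfl
  · intro h h' e
    funext k
    exact Sum.inl_injective (congrFun e k)
  · intro h
    exact mul_nonneg (Finset.prod_nonneg fun k _ => hom _) ((hMASS F L).1 _ _)

/-- lower bound with one rare letter -/
theorem low_one' (hPOW : S_POW) (hMASS : S_MASS) (x : F) (L : AddSubgroup (Fin 2 → F)) {j : ℕ}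
    {ρ : ℝ} (g : Fin j → SL2 F) (hρ : 0 ≤ ρ) (hj : j * ρ ≤ 1) (i : Fin j) (y : Gp F)
    (B b' : ℕ) (hb' : b' ≤ B + 1) :
    ((1 - j * ρ) / (p : ℝ) ^ 2) ^ B * ρ * ∑ w : Fin b' × (Fin B → NilT p),
      mL L (((List.ofFn w.2).take w.1.1).map (st x) ++ g i ::
        ((List.ofFn w.2).drop w.1.1).map (st x)) y ≤
    cpow (muR (p := p) L x ρ g) (B + 1) y := by
  have hw : 0 ≤ (1 - j * ρ) / (p : ℝ) ^ 2 := div_nonneg (by linarith) (by positivity)
  have hP := congrFun (hPOW F L (NilT p ⊕ Fin j) (Sum.elim (fun N : NilT p => st x N) g)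
    (Sum.elim (fun _ => (1 - j * ρ) / (p : ℝ) ^ 2) (fun _ => ρ)) (B + 1) (by omega)) y
  have h0 : cpow (muR (p := p) L x ρ g) (B + 1) y = _ := hP
  rw [h0, Finset.mul_sum]
  have hom : ∀ k : NilT p ⊕ Fin j,
      0 ≤ (Sum.elim (fun _ => (1 - j * ρ) / (p : ℝ) ^ 2) (fun _ => ρ) k : ℝ) := by
    rintro (k | k)
    · exact hw
    · exact hρ
  refine le_trans (le_of_eq ?_) (sum_inj (fun (w : Fin b' × (Fin B → NilT p)) =>
    ins (Fin.castLE hb' w.1) i w.2) ?_ _ ?_)
  · refine Finset.sum_congr rfl fun w _ => ?_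
    rw [Fin.prod_univ_succAbove _ (Fin.castLE hb' w.1),
      show ins (Fin.castLE hb' w.1) i w.2 (Fin.castLE hb' w.1) = Sum.inr i from
        Fin.insertNth_apply_same _ _ _]
    have h3 : ∀ k : Fin B, ins (Fin.castLE hb' w.1) i w.2 ((Fin.castLE hb' w.1).succAbove k) =
        Sum.inl (w.2 k) := fun k => Fin.insertNth_apply_succAbove _ _ _ _
    simp only [h3, Sum.elim_inl, Sum.elim_inr, Finset.prod_const, Finset.card_univ,
      Fintype.card_fin]
    have h5 : (List.ofFn fun k => Sum.elim (fun N : NilT p => st x N) g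
        (ins (Fin.castLE hb' w.1) i w.2 k)) =
        (List.ofFn (ins (Fin.castLE hb' w.1) i w.2)).map
          (Sum.elim (fun N : NilT p => st x N) g) := by
      rw [List.map_ofFn]; rfl
    have h4 : List.ofFn (ins (Fin.castLE hb' w.1) i w.2) =
        (List.ofFn fun k => (Sum.inl (w.2 k) : NilT p ⊕ Fin j)).take w.1.1 ++ Sum.inr i ::
          (List.ofFn fun k => (Sum.inl (w.2 k) : NilT p ⊕ Fin j)).drop w.1.1 :=
      ofFn_insertNth B w.1.1 (by omega) (Sum.inr i) _
    have h6 : (List.ofFn fun k => (Sum.inl (w.2 k) : NilT p ⊕ Fin j)) =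
        (List.ofFn w.2).map Sum.inl := by
      rw [List.map_ofFn]; rfl
    rw [h5, h4, h6, List.map_append, List.map_cons, ← List.map_take,
      ← List.map_drop, List.map_map, List.map_map, Sum.elim_inr, mul_comm _ ρ]
    rfl
  · rintro ⟨s, h⟩ ⟨s', h'⟩ e
    obtain ⟨e1, e2⟩ := ins_inj e
    exact Prod.ext (Fin.castLE_injective hb' e1) e2
  · intro h
    exact mul_nonneg (Finset.prod_nonneg fun k _ => hom _) ((hMASS F L).1 _ _)

theorem low_one (hPOW : S_POW) (hMASS : S_MASS) (x : F) (L : AddSubgroup (Fin 2 → F)) {j b : ℕ}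
    (hb : 1 ≤ b) {ρ : ℝ} (g : Fin j → SL2 F) (hρ : 0 ≤ ρ) (hj : j * ρ ≤ 1) (i : Fin j) (y : Gp F) :
    ((1 - j * ρ) / (p : ℝ) ^ 2) ^ (7 * b - 1) * ρ *
      ∑ w : Fin b × (Fin (7 * b - 1) → NilT p), mL L (win x (g i) w) y ≤
      cpow (muR (p := p) L x ρ g) (7 * b) y := by
  have h := low_one' (p := p) hPOW hMASS x L g hρ hj i y (7 * b - 1) b (by omega)
  rw [show 7 * b - 1 + 1 = 7 * b by omega] at h
  exact h

omit [Fintype F] [DecidableEq F] in
/-- the list grows by one window at the end -/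
theorem wl_snoc (x : F) {n m b : ℕ} (g : Fin (m + 1) → SL2 F)
    (a1 : Fin n → NilT p) (a2 : Fin m → Fin b × (Fin (7 * b - 1) → NilT p))
    (w : Fin b × (Fin (7 * b - 1) → NilT p)) :
    wl x (fun i : Fin m => g i.castSucc) (a1, a2) ++ win x (g (Fin.last m)) w =
      wl x g (a1, Fin.snoc (α := fun _ => Fin b × (Fin (7 * b - 1) → NilT p)) a2 w) := by
  unfold wl
  rw [List.ofFn_succ' (fun i : Fin (m + 1) => win x (g i)
    ((a1, Fin.snoc (α := fun _ => Fin b × (Fin (7 * b - 1) → NilT p)) a2 w).2 i))]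
  simp only [Fin.snoc_castSucc, Fin.snoc_last, List.concat_eq_append, List.flatten_append,
    List.flatten_cons, List.flatten_nil, List.append_nil, List.append_assoc]

/-- lower bound with `m` windows -/
theorem low_all (hPOW : S_POW) (hMASS : S_MASS) (hCONV : S_CONV) (x : F)
    (L : AddSubgroup (Fin 2 → F)) {n j b : ℕ} (hn : 1 ≤ n) (hb : 1 ≤ b) {ρ : ℝ} (g : Fin j → SL2 F)
    (hρ : 0 ≤ ρ) (hj : j * ρ ≤ 1) (m : ℕ) : ∀ (r : Fin m → Fin j) (y : Gp F),
    ((1 - j * ρ) / (p : ℝ) ^ 2) ^ (n + (7 * b - 1) * m) * ρ ^ m *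
      ∑ a : (Fin n → NilT p) × (Fin m → Fin b × (Fin (7 * b - 1) → NilT p)),
        mL L (wl x (fun i => g (r i)) a) y ≤
      cpow (muR (p := p) L x ρ g) (n + 7 * b * m) y := by
  have hw : 0 ≤ (1 - j * ρ) / (p : ℝ) ^ 2 := div_nonneg (by linarith) (by positivity)
  induction m with
  | zero =>
    intro r y
    have h := low_free (p := p) hPOW hMASS x L hn g hρ hj y
    rw [Fintype.sum_prod_type]
    simpa [wl] using h
  | succ m ih =>
    intro r y
    have h1 := ih fun i => r i.castSucc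
    have h2 := low_one (p := p) hPOW hMASS x L hb g hρ hj (r (Fin.last m))
    have e : n + 7 * b * (m + 1) = (n + 7 * b * m) + 7 * b := by ring
    rw [e, cpow_add]
    refine le_trans (le_of_eq ?_) (conv_mono ?_ ?_ h1 h2 y)
    · rw [conv_smul, conv_sum]
      have e2 : ((1 - j * ρ) / (p : ℝ) ^ 2) ^ (n + (7 * b - 1) * (m + 1)) * ρ ^ (m + 1) =
          ((1 - j * ρ) / (p : ℝ) ^ 2) ^ (n + (7 * b - 1) * m) * ρ ^ m *
            (((1 - j * ρ) / (p : ℝ) ^ 2) ^ (7 * b - 1) * ρ) := by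
        rw [mul_add, mul_one, ← add_assoc, pow_add, pow_succ]
        ring
      rw [e2]
      congr 1
      let Q := Fin b × (Fin (7 * b - 1) → NilT p)
      refine (Fintype.sum_equiv (((Equiv.prodAssoc (Fin n → NilT p) (Fin m → Q) Q).trans
        (Equiv.prodCongr (Equiv.refl _) ((Equiv.prodComm _ _).trans
          (Fin.snocEquiv fun _ => Q))))) _ _ fun a => ?_).symm
      obtain ⟨⟨a1, a2⟩, w⟩ := a
      rw [hCONV F L]
      rw [wl_snoc x (fun i => g (r i)) a1 a2 w]
      rfl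
    · intro z
      exact mul_nonneg (by positivity) (Finset.sum_nonneg fun a _ => (hMASS F L).1 _ _)
    · intro z
      exact mul_nonneg (by positivity) (Finset.sum_nonneg fun a _ => (hMASS F L).1 _ _)

end main

/-- **windows with exactly one rare step** -/
theorem win' : S_NIL → S_MASS → S_CONV → S_POW → S_WIN := by
  intro hNIL hMASS hCONV hPOW p _ F _ _ _ _ x L n j b hn hb ρ g hρ hj
  have hp : (0 : ℝ) < p := by exact_mod_cast (Fact.out : p.Prime).pos
  have hcard : (Fintype.card (NilT p) : ℝ) = (p : ℝ) ^ 2 := by rw [hNIL p]; push_cast; ring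
  have hw : 0 ≤ (1 - j * ρ) / (p : ℝ) ^ 2 := div_nonneg (by linarith) (by positivity)
  set α := (Fin n → NilT p) × (Fin j → Fin b × (Fin (7 * b - 1) → NilT p)) with hα
  have hcα : (Fintype.card α : ℝ) = ((p : ℝ) ^ 2) ^ (n + (7 * b - 1) * j) * (b : ℝ) ^ j := by
    change (Fintype.card ((Fin n → NilT p) × (Fin j → Fin b × (Fin (7 * b - 1) → NilT p))) : ℝ) = _
    rw [Fintype.card_prod, Fintype.card_fun, Fintype.card_fun, Fintype.card_prod,
      Fintype.card_fun, Fintype.card_fin, Fintype.card_fin, Fintype.card_fin, Fintype.card_fin]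
    push_cast
    rw [hcard, mul_pow, pow_add, pow_mul]
    ring
  have hbpos : (0 : ℝ) < b := by exact_mod_cast hb
  have hcα0 : (0 : ℝ) < Fintype.card α := by rw [hcα]; positivity
  set c0 : ℝ := (1 - j * ρ) ^ (n + (7 * b - 1) * j) * (b * ρ) ^ j with hc0
  set ν : Gp F → ℝ := fun y => 1 / (Fintype.card α : ℝ) * ∑ a : α, mL L (wl x g a) y with hν
  set P : Gp F → ℝ := cpow (muR (p := p) L x ρ g) (n + 7 * b * j) with hP
  have hc00 : 0 ≤ c0 := by
    have : 0 ≤ 1 - j * ρ := by linarith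
    positivity
  have hν0 : ∀ y, 0 ≤ ν y := fun y =>
    mul_nonneg (by positivity) (Finset.sum_nonneg fun a _ => (hMASS F L).1 _ _)
  have hlow : ∀ y, c0 * ν y ≤ P y := by
    intro y
    refine le_trans (le_of_eq ?_) (low_all (p := p) hPOW hMASS hCONV x L hn hb g hρ hj j id y)
    rw [hc0, hν]
    dsimp only [id]
    rw [hcα, div_pow, mul_pow]
    have h1 : ((p : ℝ) ^ 2) ^ (n + (7 * b - 1) * j) ≠ 0 := by positivity
    have h2 : (b : ℝ) ^ j ≠ 0 := by positivity
    field_simp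
    rfl
  have hνm : ∑ y, ν y = 1 := by
    rw [hν, ← Finset.mul_sum, Finset.sum_comm]
    simp only [(hMASS F L).2.1]
    rw [Finset.sum_const, Finset.card_univ, nsmul_eq_mul, mul_one]
    field_simp
  have hμm : ∑ y, muR (p := p) L x ρ g y = 1 := by
    simp only [muR, mix]
    rw [Finset.sum_comm]
    simp only [← Finset.mul_sum, (hMASS F L).2.1, mul_one]
    rw [Fintype.sum_sum_type]
    simp only [Sum.elim_inl, Sum.elim_inr, Finset.sum_const, Finset.card_univ, nsmul_eq_mul,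
      Fintype.card_fin]
    rw [hcard]
    field_simp
    ring
  have hPm : ∑ y, P y = 1 := cpow_mass hμm _
  have hc01 : c0 ≤ 1 := by
    have h1 : ∑ y, c0 * ν y ≤ ∑ y, P y := Finset.sum_le_sum fun y _ => hlow y
    rw [← Finset.mul_sum, hνm, hPm, mul_one] at h1
    exact h1
  have hG : (0 : ℝ) < Fintype.card (Gp F) := by exact_mod_cast Fintype.card_pos
  have hpt : ∀ y, |P y - 1 / (Fintype.card (Gp F) : ℝ)| ≤
      c0 * |ν y - 1 / (Fintype.card (Gp F) : ℝ)| + ((P y - c0 * ν y) +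
        (1 - c0) / (Fintype.card (Gp F) : ℝ)) := by
    intro y
    have h1 : P y - 1 / (Fintype.card (Gp F) : ℝ) =
        c0 * (ν y - 1 / (Fintype.card (Gp F) : ℝ)) + (P y - c0 * ν y) -
          (1 - c0) / (Fintype.card (Gp F) : ℝ) := by ring
    have h2 : 0 ≤ P y - c0 * ν y := by linarith [hlow y]
    have h3 : 0 ≤ (1 - c0) / (Fintype.card (Gp F) : ℝ) := div_nonneg (by linarith) hG.le
    have h4 : c0 * |ν y - 1 / (Fintype.card (Gp F) : ℝ)| =
        |c0 * (ν y - 1 / (Fintype.card (Gp F) : ℝ))| := by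
      rw [abs_mul, abs_of_nonneg hc00]
    rw [h4, h1, abs_le]
    have h5 := neg_abs_le (c0 * (ν y - 1 / (Fintype.card (Gp F) : ℝ)))
    have h6 := le_abs_self (c0 * (ν y - 1 / (Fintype.card (Gp F) : ℝ)))
    constructor <;> linarith
  have hsum : l1 P ≤ c0 * l1 ν + ((1 - c0) + (1 - c0)) := by
    unfold l1
    refine (Finset.sum_le_sum fun y _ => hpt y).trans (le_of_eq ?_)
    rw [Finset.sum_add_distrib, Finset.sum_add_distrib, Finset.sum_sub_distrib, ← Finset.mul_sum,
      ← Finset.mul_sum, hνm, hPm, Finset.sum_const, Finset.card_univ, nsmul_eq_mul]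
    have h9 : (Fintype.card (Gp F) : ℝ) * ((1 - c0) / (Fintype.card (Gp F) : ℝ)) = 1 - c0 := by
      field_simp
    rw [h9, mul_one]
  have : l1 P ≤ 2 * (1 - c0) + c0 * l1 ν := by linarith
  exact this

end Pool.Agent.Y65.CE
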